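import Mathlib
import Pool.Agent.Q88.QN.Coef

/-!
# Hypercyclicity of `f(T)` and of `1 + T` for quasinilpotent `T`
-/

set_option autoImplicit false

namespace Pool.Agent.Results.MP_2949c4_an.EveryEntireFunction

open Filter Topology

variable {X : Type} [NormedAddCommGroup X] [InnerProductSpace ℂ X]

/-- `T` is quasinilpotent: `‖T ^ n‖ ^ (1 / n)` tends to zero, and the spectrum is `{0}`. -/
def Quasinilpotent (T : X →L[ℂ] X) : Prop :=
  Tendsto (fun n : ℕ => ‖T ^ n‖ ^ (1 / (n : ℝ))) atTop (𝓝 0) ∧ spectrum ℂ T = {0}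

/-- `S` is hypercyclic: some orbit is dense. -/
def Hypercyclic (S : X →L[ℂ] X) : Prop := ∃ x : X, Dense (Set.range fun n : ℕ => (S ^ n) x)

/-- `f(T) = ∑ aₙ Tⁿ`, where `aₙ` are the Taylor coefficients of `f` at the origin. -/
noncomputable def apply (f : ℂ → ℂ) (T : X →L[ℂ] X) : X →L[ℂ] X :=
  ∑' n : ℕ, (iteratedDeriv n f 0 / (n.factorial : ℂ)) • T ^ n

/-- Entire functions with `f(0) = f'(0) = 1`. -/
def Normalised (f : ℂ → ℂ) : Prop := Differentiable ℂ f ∧ f 0 = 1 ∧ deriv f 0 = 1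

/-- For any two normalised entire functions `f`, `g` with `Re f''(0) ≠ Re g''(0)` there is a
quasinilpotent `T` on a separable complex Hilbert space with `f(T)` hypercyclic and `g(T)` not. In
particular for every normalised entire `f` with `Re f''(0) ≠ 0` neither of the hypercyclicity of
`f(T)` and of `1 + T` implies the other. -/
theorem result :
    (∀ f g : ℂ → ℂ, Normalised f → Normalised g →
      (iteratedDeriv 2 f 0).re ≠ (iteratedDeriv 2 g 0).re →
      ∃ (X : Type) (_ : NormedAddCommGroup X) (_ : InnerProductSpace ℂ X) (_ : CompleteSpace X)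
        (_ : TopologicalSpace.SeparableSpace X) (T : X →L[ℂ] X),
        Quasinilpotent T ∧ Hypercyclic (apply f T) ∧ ¬ Hypercyclic (apply g T)) ∧
    (∀ f : ℂ → ℂ, Normalised f → (iteratedDeriv 2 f 0).re ≠ 0 →
      (∃ (X : Type) (_ : NormedAddCommGroup X) (_ : InnerProductSpace ℂ X) (_ : CompleteSpace X)
        (_ : TopologicalSpace.SeparableSpace X) (T : X →L[ℂ] X),
        Quasinilpotent T ∧ Hypercyclic (1 + T) ∧ ¬ Hypercyclic (apply f T)) ∧
      (∃ (X : Type) (_ : NormedAddCommGroup X) (_ : InnerProductSpace ℂ X) (_ : CompleteSpace X)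
        (_ : TopologicalSpace.SeparableSpace X) (T : X →L[ℂ] X),
        Quasinilpotent T ∧ Hypercyclic (apply f T) ∧ ¬ Hypercyclic (1 + T))) := by
  have htwo : ∀ f : ℂ → ℂ, (Q88.QN.tc f 2).re = (iteratedDeriv 2 f 0).re / 2 := by
    intro f
    have : ((Nat.factorial 2 : ℕ) : ℂ) = ((2 : ℝ) : ℂ) := by norm_num [Nat.factorial]
    rw [Q88.QN.tc, this, Complex.div_ofReal_re]
  refine ⟨fun f g hf hg hfg => ?_, fun f hf hf2 => ⟨?_, ?_⟩⟩
  · refine Q88.QN.main' (Q88.QN.tc f) (Q88.QN.tc g) (Q88.QN.tc_ent f hf.1 hf.2.1 hf.2.2)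
      (Q88.QN.tc_ent g hg.1 hg.2.1 hg.2.2) ?_
    rw [htwo, htwo]
    intro h
    apply hfg
    linarith
  · obtain ⟨X, i1, i2, i3, i4, T, h1, h2, h3⟩ := Q88.QN.main' Q88.QN.lc (Q88.QN.tc f)
      Q88.QN.lc_ent (Q88.QN.tc_ent f hf.1 hf.2.1 hf.2.2) (by
        rw [Q88.QN.lc_two, htwo]
        intro h
        apply hf2
        linarith)
    rw [Q88.QN.fop_lc] at h2
    exact ⟨X, i1, i2, i3, i4, T, h1, h2, h3⟩
  · obtain ⟨X, i1, i2, i3, i4, T, h1, h2, h3⟩ := Q88.QN.main' (Q88.QN.tc f) Q88.QN.lc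
      (Q88.QN.tc_ent f hf.1 hf.2.1 hf.2.2) Q88.QN.lc_ent (by
        rw [Q88.QN.lc_two, htwo]
        intro h
        apply hf2
        linarith)
    rw [Q88.QN.fop_lc] at h3
    exact ⟨X, i1, i2, i3, i4, T, h1, h2, h3⟩

end Pool.Agent.Results.MP_2949c4_an.EveryEntireFunction
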